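import Pool.Agent.Helper69.TPF.St1

/-!
# Project TPF, module EXT: the central extension
-/

set_option autoImplicit false

open scoped commutatorElement ComplexConjugate

namespace Pool.Agent.Helper7.TPF

open Pool.Agent.Helper69.TPF

section

variable {A : Type} [Ring A]

/-- Product of elements of the form `w + (1 - e)`. -/
theorem mul_cor {e w w' : A} (hee : e * e = e) (h1 : w * e = w) (h2 : e * w' = w') :
    (w + (1 - e)) * (w' + (1 - e)) = w * w' + (1 - e) := by
  have h3 : w * (1 - e) = 0 := by rw [mul_sub, mul_one, h1, sub_self]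
  have h4 : (1 - e) * w' = 0 := by rw [sub_mul, one_mul, h2, sub_self]
  have h5 : (1 - e) * (1 - e) = 1 - e := by
    rw [mul_sub, mul_one, sub_mul, one_mul, hee, sub_self, sub_zero]
  rw [add_mul, mul_add, mul_add, h3, h4, h5, add_zero, zero_add]

/-- Left multiplication by the idempotent. -/
theorem e_mul_cor {e w : A} (hee : e * e = e) (h : e * w = w) : e * (w + (1 - e)) = w := by
  rw [mul_add, mul_sub, mul_one, hee, h, sub_self, add_zero]

end

/-- The group of the homogeneous units of norm `1`. -/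
theorem exists_grp {E G : Type} [Group E] [Group G] [Fintype E] (π : E →* G) (e : AA E)
    (hC : CC π 1 e) (hee : e * e = e) (hne : e ≠ 0)
    (gmul : ∀ h h' (z w : AA E), CC π h z → CC π h' w → CC π (h * h') (z * w))
    (gcomm : ∀ h (z w : AA E), CC π 1 z → CC π h w → z * w = w * z)
    (hinv : ∀ (h : G) (w : AA E), CC π h w → e * w ≠ 0 →
      ∃ w', CC π h⁻¹ w' ∧ EInv e (e * w) w') :
    ∃ Γ : Subgroup (G × (AA E)ˣ), ∀ x, x ∈ Γ ↔ CC π x.1 (e * (x.2 : AA E)) ∧
      e * (x.2 : AA E) + (1 - e) = x.2 ∧ Algebra.norm ℂ (x.2 : AA E) = 1 := by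
  refine ⟨{
    carrier := {x | CC π x.1 (e * (x.2 : AA E)) ∧
      e * (x.2 : AA E) + (1 - e) = x.2 ∧ Algebra.norm ℂ (x.2 : AA E) = 1}
    one_mem' := ?_
    mul_mem' := ?_
    inv_mem' := ?_ }, fun x => Iff.rfl⟩
  · rintro ⟨h, u⟩ ⟨h', u'⟩ ⟨a1, a2, a3⟩ ⟨b1, b2, b3⟩
    have ew : e * (e * (u : AA E)) = e * u := by rw [← mul_assoc, hee]
    have ew' : e * (e * (u' : AA E)) = e * u' := by rw [← mul_assoc, hee]
    have we : (e * (u : AA E)) * e = e * u := by rw [← gcomm h e _ hC a1, ew]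
    have hm : (u : AA E) * u' = (e * u) * (e * u') + (1 - e) := by
      have := mul_cor hee we ew'
      rw [← this]
      simp only at a2 b2
      rw [a2, b2]
    have hm2 : e * ((u : AA E) * u') = (e * u) * (e * u') := by
      rw [hm]
      exact e_mul_cor hee (by rw [← mul_assoc, ew])
    refine ⟨?_, ?_, ?_⟩
    · show CC π (h * h') (e * ((u : AA E) * u'))
      rw [hm2]
      exact gmul h h' _ _ a1 b1
    · show e * ((u : AA E) * u') + (1 - e) = (u : AA E) * u'
      rw [hm2, ← hm]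
    · show Algebra.norm ℂ ((u : AA E) * u') = 1
      simp only at a3 b3
      rw [map_mul, a3, b3, one_mul]
  · refine ⟨?_, ?_, ?_⟩
    · show CC π 1 (e * (1 : AA E))
      rw [mul_one]
      exact hC
    · show e * (1 : AA E) + (1 - e) = 1
      rw [mul_one]
      exact add_sub_cancel e 1
    · show Algebra.norm ℂ (1 : AA E) = 1
      exact map_one _
  · rintro ⟨h, u⟩ ⟨a1, a2, a3⟩
    have ew : e * (e * (u : AA E)) = e * u := by rw [← mul_assoc, hee]
    have we : (e * (u : AA E)) * e = e * u := by rw [← gcomm h e _ hC a1, ew]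
    obtain ⟨w', c1, c2, c3, c4, c5, c6, c7⟩ := hinv h (e * u) a1 (by
      rw [ew]
      intro h0
      exact hne ((Units.mul_left_eq_zero u).1 h0))
    rw [ew] at c6
    have hi : ((u⁻¹ : (AA E)ˣ) : AA E) = w' + (1 - e) := by
      apply Units.inv_eq_of_mul_eq_one_right
      simp only at a2
      rw [← a2, mul_cor hee we c4, c6]
      exact add_sub_cancel e 1
    have hi2 : e * ((u⁻¹ : (AA E)ˣ) : AA E) = w' := by
      rw [hi]
      exact e_mul_cor hee c4
    refine ⟨?_, ?_, ?_⟩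
    · show CC π h⁻¹ (e * ((u⁻¹ : (AA E)ˣ) : AA E))
      rw [hi2]
      exact c1
    · show e * ((u⁻¹ : (AA E)ˣ) : AA E) + (1 - e) = ((u⁻¹ : (AA E)ˣ) : AA E)
      rw [hi2, ← hi]
    · show Algebra.norm ℂ ((u⁻¹ : (AA E)ˣ) : AA E) = 1
      have h5 := map_mul (Algebra.norm ℂ) (u : AA E) ((u⁻¹ : (AA E)ˣ) : AA E)
      simp only at a3
      rw [Units.mul_inv, map_one, a3, one_mul] at h5
      exact h5.symm

/-- **EXT**. -/
theorem cEXT (_adj : St_ADJ) (grd : St_GRD) (inv : St_INV) (nrm : St_NRM) : St_EXT := by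
  intro E G _ _ _ _ π e he hfull
  obtain ⟨-, -, -, gsmul, -, gmul, gcomm, -⟩ := grd E G π
  obtain ⟨-, -, hinv⟩ := inv E G π e he
  obtain ⟨hC, hee, hne, hprim⟩ := he
  obtain ⟨d, hd1, hd2, hd⟩ := nrm E e hee hne
  obtain ⟨Γ, hΓ⟩ := exists_grp π e hC hee hne gmul gcomm (fun h w a b => (hinv h w a b).1)
  have ew : ∀ x : AA E, e * (e * x) = e * x := fun x => by rw [← mul_assoc, hee]
  have we : ∀ γ : Γ, (e * (γ.1.2 : AA E)) * e = e * γ.1.2 := fun γ => by
    rw [← gcomm _ e _ hC ((hΓ γ.1).1 γ.2).1, ew]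
  have hm : ∀ γ δ : Γ, (γ.1.2 : AA E) * δ.1.2 = (e * γ.1.2) * (e * δ.1.2) + (1 - e) := by
    intro γ δ
    rw [← mul_cor hee (we γ) (ew _), ((hΓ γ.1).1 γ.2).2.1, ((hΓ δ.1).1 δ.2).2.1]
  have hm2 : ∀ γ δ : Γ, e * ((γ.1.2 : AA E) * δ.1.2) = (e * γ.1.2) * (e * δ.1.2) := by
    intro γ δ
    rw [hm]
    exact e_mul_cor hee (by rw [← mul_assoc, ew])
  let p : Γ →* G := (MonoidHom.fst G (AA E)ˣ).comp Γ.subtype
  have hp : ∀ γ : Γ, p γ = γ.1.1 := fun γ => rfl
  -- the kernel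
  have hk : ∀ γ : Γ, p γ = 1 → ∃ c : ℂ, e * (γ.1.2 : AA E) = c • e := by
    intro γ hγ
    have h1 := ((hΓ γ.1).1 γ.2).1
    rw [← hp, hγ] at h1
    obtain ⟨c, hc⟩ := hprim _ h1
    rw [ew] at hc
    exact ⟨c, hc⟩
  have hsurj : Function.Surjective p := by
    intro h
    obtain ⟨w0, hw0, hw0'⟩ := hfull h
    obtain ⟨w, hw⟩ : ∃ w, w = e * w0 := ⟨_, rfl⟩
    have cw : CC π h w := by
      have := gmul 1 h e w0 hC hw0
      rwa [one_mul, ← hw] at this
    have ew1 : e * w = w := by rw [hw, ew]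
    have we1 : w * e = w := by rw [← gcomm h e w hC cw, ew1]
    obtain ⟨⟨w', cw', -, -, ew', we', ww', w'w⟩, -⟩ := hinv h w cw (by
      rw [ew1, hw]
      exact hw0')
    rw [ew1] at ww' w'w
    have hone : e + (1 - e) = 1 := add_sub_cancel e 1
    have hδ : Algebra.norm ℂ (w + (1 - e)) ≠ 0 := by
      intro h0
      have h5 := map_mul (Algebra.norm ℂ) (w + (1 - e)) (w' + (1 - e))
      rw [mul_cor hee we1 ew', ww', hone, map_one, h0, zero_mul] at h5
      exact one_ne_zero h5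
    obtain ⟨c, hc⟩ := IsAlgClosed.exists_pow_nat_eq (Algebra.norm ℂ (w + (1 - e)))⁻¹
      (n := d) (by omega)
    have hc0 : c ≠ 0 := by
      rintro rfl
      rw [zero_pow (by omega)] at hc
      exact inv_ne_zero hδ hc.symm
    have e1 : (c • w) * e = c • w := by rw [smul_mul_assoc, we1]
    have e2 : e * (c • w) = c • w := by rw [mul_smul_comm, ew1]
    have e3 : (c⁻¹ • w') * e = c⁻¹ • w' := by rw [smul_mul_assoc, we']
    have e4 : e * (c⁻¹ • w') = c⁻¹ • w' := by rw [mul_smul_comm, ew']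
    have u1 : (c • w + (1 - e)) * (c⁻¹ • w' + (1 - e)) = 1 := by
      rw [mul_cor hee e1 e4, smul_mul_smul_comm, mul_inv_cancel₀ hc0, one_smul, ww', hone]
    have u2 : (c⁻¹ • w' + (1 - e)) * (c • w + (1 - e)) = 1 := by
      rw [mul_cor hee e3 e2, smul_mul_smul_comm, inv_mul_cancel₀ hc0, one_smul, w'w, hone]
    have hn : Algebra.norm ℂ (c • w + (1 - e)) = 1 := by
      have h6 : c • w + (1 - e) = (c • e + (1 - e)) * (w + (1 - e)) := by
        rw [mul_cor hee (by rw [smul_mul_assoc, hee]) ew1, smul_mul_assoc, ew1]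
      rw [h6, map_mul, hd, hc, inv_mul_cancel₀ hδ]
    have h7 : e * (c • w + (1 - e)) = c • w := e_mul_cor hee e2
    refine ⟨⟨(h, ⟨c • w + (1 - e), c⁻¹ • w' + (1 - e), u1, u2⟩), ?_⟩, rfl⟩
    rw [hΓ]
    refine ⟨?_, ?_, hn⟩
    · show CC π h (e * (c • w + (1 - e)))
      rw [h7]
      exact gsmul h c w cw
    · show e * (c • w + (1 - e)) + (1 - e) = c • w + (1 - e)
      rw [h7]
  have hcen : p.ker ≤ Subgroup.center Γ := by
    intro γ hγ
    rw [MonoidHom.mem_ker] at hγ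
    rw [Subgroup.mem_center_iff]
    intro δ
    obtain ⟨c, hc⟩ := hk γ hγ
    apply Subtype.ext
    refine Prod.ext ?_ (Units.ext ?_)
    · show δ.1.1 * γ.1.1 = γ.1.1 * δ.1.1
      rw [← hp γ, hγ, mul_one, one_mul]
    · show (δ.1.2 : AA E) * γ.1.2 = (γ.1.2 : AA E) * δ.1.2
      rw [hm, hm, hc, smul_mul_assoc, mul_smul_comm, we, ew]
  -- counting
  choose! cf hcf using hk
  have hpow : ∀ γ : p.ker, cf γ.1 ∈ (Polynomial.nthRoots d (1 : ℂ)).toFinset := by
    intro γ
    rw [Multiset.mem_toFinset, Polynomial.mem_nthRoots (by omega)]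
    have h1 := hcf γ.1 (MonoidHom.mem_ker.1 γ.2)
    have h2 := (hΓ γ.1.1).1 γ.1.2
    have h3 := h2.2.2
    rw [← h2.2.1, h1, hd] at h3
    exact h3
  let F : p.ker → (Polynomial.nthRoots d (1 : ℂ)).toFinset := fun γ => ⟨cf γ.1, hpow γ⟩
  have hF : Function.Injective F := by
    intro γ δ hγδ
    have h0 : cf γ.1 = cf δ.1 := congrArg Subtype.val hγδ
    have a1 := hcf γ.1 (MonoidHom.mem_ker.1 γ.2)
    have a2 := hcf δ.1 (MonoidHom.mem_ker.1 δ.2)
    have b1 := ((hΓ γ.1.1).1 γ.1.2).2.1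
    have b2 := ((hΓ δ.1.1).1 δ.1.2).2.1
    apply Subtype.ext
    apply Subtype.ext
    refine Prod.ext ?_ (Units.ext ?_)
    · exact ((hp γ.1).symm.trans (MonoidHom.mem_ker.1 γ.2)).trans
        ((hp δ.1).symm.trans (MonoidHom.mem_ker.1 δ.2)).symm
    · rw [← b1, ← b2, a1, a2, h0]
  have hfk : Finite p.ker := Finite.of_injective F hF
  have hck : Nat.card p.ker ≤ d := by
    refine (Nat.card_le_card_of_injective F hF).trans ?_
    rw [Nat.card_eq_fintype_card, Fintype.card_coe]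
    exact (Multiset.toFinset_card_le _).trans (Polynomial.card_nthRoots d 1)
  have hfq : Finite (Γ ⧸ p.ker) :=
    Finite.of_equiv G (QuotientGroup.quotientKerEquivOfSurjective p hsurj).symm.toEquiv
  have hfΓ : Finite Γ := Finite.of_equiv _ (Subgroup.groupEquivQuotientProdSubgroup (s := p.ker)).symm
  have hcard : Nat.card Γ ≤ Nat.card E * Nat.card G := by
    rw [Subgroup.card_eq_card_quotient_mul_card_subgroup p.ker,
      Nat.card_congr (QuotientGroup.quotientKerEquivOfSurjective p hsurj).toEquiv, mul_comm]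
    exact Nat.mul_le_mul_right _ (hck.trans hd2)
  refine ⟨Γ, inferInstance, hfΓ, p, fun γ => e * (γ.1.2 : AA E), hsurj, hcen, hcard,
    fun γ => ((hΓ γ.1).1 γ.2).1, fun γ => ew _, fun γ δ => hm2 γ δ, ?_⟩
  show e * (1 : AA E) = e
  rw [mul_one]

end Pool.Agent.Helper7.TPF
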